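import Pool.Agent.helper50.DP.GV3
import Pool.Agent.helper64.TP.SpecG1
import Pool.Agent.helper64.TP.Basic
import Pool.Agent.helper64.TP.Conv
/-!
# GV3: lower bound for the variance of the conditional probability of a crossing
-/

namespace TP

open DP

open MeasureTheory

theorem GV3_meas {F : Set (V → Bool)} {A : Set V} (h : Loc F A) : MeasurableSet F :=
  h.measurableSet

theorem GV3_fkg (hBfkg : Bfkg_stmt) (hBzero : Bzero_stmt) {A G : Set (V → Bool)} {S T : Set V}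
    (hA : Loc A S) (hG : Loc G T) (hmA : Mon true A) (hmG : Mon false G) :
    Pr (A ∩ G) ≤ Pr A * Pr G := by
  have := GV3_prob
  have hA' : Loc A (S ∪ T) := hA.mono Set.subset_union_left
  have hG' : Loc G (S ∪ T) := hG.mono Set.subset_union_right
  have h1 := hBfkg (fun _ => 0) false Aᶜ G (S ∪ T) hA'.compl hG' hmA.compl hmG
  have hI : Loc (Aᶜ ∩ G) (S ∪ T) := by
    have := hA'.compl.inter hG'
    rwa [Set.union_self] at this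
  rw [hBzero _ _ _ (S ∪ T) hA'.compl hA'.compl (fun _ _ => rfl),
    hBzero _ _ _ (S ∪ T) hG' hG' (fun _ _ => rfl),
    hBzero _ _ _ (S ∪ T) hI hI (fun _ _ => rfl), Set.inter_self, Set.inter_self,
    Set.inter_self] at h1
  have h2 : Pr Aᶜ = 1 - Pr A := by
    unfold Pr
    rw [measureReal_compl (GV3_meas hA)]
    simp
  have h3 : Pr (A ∩ G) + Pr (Aᶜ ∩ G) = Pr G := by
    unfold Pr
    rw [Set.inter_comm A, Set.inter_comm Aᶜ, ← Set.sdiff_eq]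
    exact measureReal_inter_add_sdiff (s := G) (GV3_meas hA)
  rw [h2] at h1
  linarith

theorem GV3_strip_loc (s : Bool) (N t : ℕ) :
    Loc (Ev fun c => Strip c s N t) (box 0 (4 * N + 3 * t)) := by
  refine Loc.ev (box_finite _ _) ?_
  intro c c' h
  unfold Strip
  refine exists_congr fun u => exists_congr fun v => and_congr_right fun _ =>
    and_congr_right fun _ => Conn.congr ?_
  intro w hw
  apply h
  show sd 0 w ≤ 4 * N + 3 * t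
  rw [sd_le_iff]
  obtain ⟨h1, h2, h3⟩ := hw
  simp only [Prod.fst_zero, Prod.snd_zero]
  push_cast
  split_ifs at h3 <;> omega

theorem GV3_strip_mon (s : Bool) (N t : ℕ) : Mon true (Ev fun c => Strip c s N t) := by
  refine Mon.ev fun c c' h => ?_
  rintro ⟨u, v, h1, h2, h3⟩
  exact ⟨u, v, h1, h2, h3.colour_mono fun w _ => h w⟩

theorem GV3_full_mon (hGLL : GLL_stmt) (ℓ : ℕ) (T : Finset (ℤ × ℤ)) :
    Mon false (Ev fun c => GFull c false 0 ℓ T) := by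
  intro b b' h hb g hg
  exact (hGLL false _ ℓ).2 b b' h (hb g hg)

theorem GV3_full_dep (hGLL : GLL_stmt) (ℓ : ℕ) (T : Finset (ℤ × ℤ)) (L : Set V)
    (hL : ∀ g ∈ T, {v : V | ℓ < sd ((0 : V).1 + 2 * ℓ * g.1, (0 : V).2 + 2 * ℓ * g.2) v ∧
      sd ((0 : V).1 + 2 * ℓ * g.1, (0 : V).2 + 2 * ℓ * g.2) v < 3 * ℓ} ⊆ L) :
    Dep (Ev fun c => GFull c false 0 ℓ T) L := by
  intro b b' h
  refine forall_congr' fun g => forall_congr' fun hg => ?_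
  obtain ⟨Λ, h1, h2⟩ := (hGLL false ((0 : V).1 + 2 * ℓ * g.1, (0 : V).2 + 2 * ℓ * g.2) ℓ).1
  exact h2 b b' fun v hv => h v (hL g hg (h1 hv))

theorem GV3 (hBfkg : Bfkg_stmt) (hBzero : Bzero_stmt) (hC1 : C1_stmt) (hGSC : GSC_stmt)
    (hGCC : GCC_stmt) (hGLF : GLF_stmt) (hGLL : GLL_stmt) (hGFU : GFU_stmt) (hGV1 : GV1_stmt)
    (hGV2 : GV2_stmt) : GV3_stmt := by
  have := GV3_prob
  obtain ⟨c₀, hc₀, ℓ₀, hℓ₀, hloop⟩ := hC1
  obtain ⟨e₀, he₀, n₀, hsq⟩ := hGSC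
  obtain ⟨J, hJ, t₀, hstrip⟩ := hGV2 (e₀ / 4) (by positivity)
  refine ⟨J, hJ, e₀ ^ 2 / 4 * c₀ ^ (sqc (16 * 2 ^ J - 10)).card, by positivity,
    max (max t₀ (8 * ℓ₀)) n₀, ?_⟩
  intro t L ht h8 hL1 hL2
  obtain ⟨ℓ, rfl⟩ := h8
  have hn₀ : n₀ ≤ 8 * ℓ := le_of_max_le_right ht
  have ht' : max t₀ (8 * ℓ₀) ≤ 8 * ℓ := le_of_max_le_left ht
  have hℓ : ℓ₀ ≤ ℓ := by
    have := le_of_max_le_right ht'
    omega
  have ht₀ : t₀ ≤ 8 * ℓ := le_of_max_le_left ht'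
  have hℓ1 : 1 ≤ ℓ := by omega
  set T := sqc (16 * 2 ^ J - 10) with hT
  set G : Set (V → Bool) := Ev fun c => GFull c false 0 ℓ T with hG
  set F := fq (2 ^ J * (8 * ℓ)) with hF
  have h2J : 8 ≤ 2 ^ J := by
    calc 8 = 2 ^ 3 := by norm_num
      _ ≤ 2 ^ J := Nat.pow_le_pow_right (by norm_num) hJ
  have e5 : 8 * ℓ ≤ 2 ^ J * ℓ := Nat.mul_le_mul_right _ h2J
  obtain ⟨X, hX⟩ : ∃ X : ℕ, X = 2 ^ J * ℓ := ⟨_, rfl⟩
  have e6 : 4 * (2 ^ J * (8 * ℓ)) - 2 * (8 * ℓ) = 32 * X - 16 * ℓ := by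
    rw [hX]
    congr 1 <;> ring
  rw [← hX] at e5
  have hdep : Dep G (box 0 (32 * X - 17 * ℓ)) := by
    refine GV3_full_dep hGLL ℓ T _ ?_
    intro g hg v hv
    show sd 0 v ≤ _
    rw [hT, sqc, Finset.mem_product, Finset.mem_Icc, Finset.mem_Icc] at hg
    obtain ⟨⟨hg1, hg2⟩, hg3, hg4⟩ := hg
    have hM : ((16 * 2 ^ J - 10 : ℕ) : ℤ) = 16 * 2 ^ J - 10 := by
      push_cast [Nat.cast_sub (show 10 ≤ 16 * 2 ^ J by omega)]
      ring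
    rw [hM] at hg1 hg2 hg3 hg4
    have hℓz : (0 : ℤ) ≤ ℓ := by positivity
    have e1 : (ℓ : ℤ) * g.1 ≤ ℓ * (16 * 2 ^ J - 10) := mul_le_mul_of_nonneg_left hg2 hℓz
    have e2 : (ℓ : ℤ) * -(16 * 2 ^ J - 10) ≤ ℓ * g.1 := mul_le_mul_of_nonneg_left hg1 hℓz
    have e3 : (ℓ : ℤ) * g.2 ≤ ℓ * (16 * 2 ^ J - 10) := mul_le_mul_of_nonneg_left hg4 hℓz
    have e4 : (ℓ : ℤ) * -(16 * 2 ^ J - 10) ≤ ℓ * g.2 := mul_le_mul_of_nonneg_left hg3 hℓz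
    have hXz : (X : ℤ) = 2 ^ J * ℓ := by rw [hX]; push_cast; ring
    have e7 : (ℓ : ℤ) * (16 * 2 ^ J - 10) = 16 * X - 10 * ℓ := by rw [hXz]; ring
    have e8 : (ℓ : ℤ) * -(16 * 2 ^ J - 10) = -(16 * X - 10 * ℓ) := by rw [hXz]; ring
    rw [e7] at e1 e3
    rw [e8] at e2 e4
    have hv2 := hv.2
    have e9 : (0 : V).1 + 2 * ℓ * g.1 = 2 * (ℓ * g.1) := by simp; ring
    have e10 : (0 : V).2 + 2 * ℓ * g.2 = 2 * (ℓ * g.2) := by simp; ring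
    rw [e9, e10] at hv2
    obtain ⟨P, hP⟩ : ∃ P : ℤ, P = ℓ * g.1 := ⟨_, rfl⟩
    obtain ⟨R, hR⟩ : ∃ R : ℤ, R = ℓ * g.2 := ⟨_, rfl⟩
    rw [← hP] at e1 e2 hv2
    rw [← hR] at e3 e4 hv2
    unfold sd at hv2 ⊢
    simp only [Prod.fst_zero, Prod.snd_zero] at hv2 ⊢
    omega
  have hlocG : Loc G (box 0 (32 * X - 17 * ℓ)) := Loc.of_finite (box_finite _ _) hdep
  have hdepL : DP.Dep G (L : Set V) := by
    intro b b' hb
    refine hdep b b' fun v hv => hb (br v) (hL1 ?_)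
    have hv' : sd 0 v ≤ 32 * X - 17 * ℓ := hv
    show sd 0 (br v) ≤ _
    rw [e6]
    have h1 := sd_br_le v
    unfold sd at h1 hv' ⊢
    simp only [Prod.fst_zero, Prod.snd_zero] at hv' ⊢
    omega
  have hmonG : Mon false G := GV3_full_mon hGLL ℓ T
  have hPG : c₀ ^ T.card ≤ Pr G :=
    hGFU c₀ ℓ hc₀.le (fun k g => hloop k g ℓ hℓ) false 0 T
  have hPG0 : 0 < Pr G := lt_of_lt_of_le (by positivity) hPG
  have hPF : e₀ ≤ Pr F := by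
    have h := hsq (4 * (2 ^ J * (8 * ℓ))) (by
      refine hn₀.trans ?_
      have : 1 ≤ 4 * 2 ^ J := by omega
      calc 8 * ℓ = 1 * (8 * ℓ) := (one_mul _).symm
        _ ≤ 4 * 2 ^ J * (8 * ℓ) := Nat.mul_le_mul_right _ this
        _ = 4 * (2 ^ J * (8 * ℓ)) := by ring)
    rw [hF, fq]
    push_cast at h ⊢
    exact h
  have hFG : Pr (F ∩ G) ≤ e₀ / 2 * Pr G := by
    have h1 : F ∩ G ⊆ ((Ev fun c => Strip c true (2 ^ J * (8 * ℓ)) (8 * ℓ)) ∩ G) ∪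
        ((Ev fun c => Strip c false (2 ^ J * (8 * ℓ)) (8 * ℓ)) ∩ G) := by
      rintro b ⟨hb1, hb2⟩
      obtain ⟨s, hs⟩ := hGV1 (col b) ℓ J hℓ1 hJ hb2 hb1
      cases s
      · exact Or.inr ⟨hs, hb2⟩
      · exact Or.inl ⟨hs, hb2⟩
    have h2 : ∀ s, Pr ((Ev fun c => Strip c s (2 ^ J * (8 * ℓ)) (8 * ℓ)) ∩ G) ≤
        e₀ / 4 * Pr G := by
      intro s
      refine (GV3_fkg hBfkg hBzero (GV3_strip_loc s _ _) hlocG (GV3_strip_mon s _ _) hmonG).trans ?_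
      exact mul_le_mul_of_nonneg_right (hstrip (8 * ℓ) s ht₀) hPG0.le
    have h3 : Pr (F ∩ G) ≤ Pr ((Ev fun c => Strip c true (2 ^ J * (8 * ℓ)) (8 * ℓ)) ∩ G) +
        Pr ((Ev fun c => Strip c false (2 ^ J * (8 * ℓ)) (8 * ℓ)) ∩ G) :=
      (measureReal_mono h1).trans (measureReal_union_le _ _)
    linarith [h2 true, h2 false]
  have hcs := hGCC L F G _ (hGLF _).1.coin hdepL
  have h4 : e₀ / 2 * Pr G ≤ Pr F * Pr G - Pr (F ∩ G) := by nlinarith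
  have h5 : (e₀ / 2 * Pr G) ^ 2 ≤ ((∫ b, cpr L F b ^ 2 ∂P1) - Pr F ^ 2) * Pr G :=
    (pow_le_pow_left₀ (by positivity) h4 2).trans hcs
  have h6 : e₀ ^ 2 / 4 * Pr G ≤ (∫ b, cpr L F b ^ 2 ∂P1) - Pr F ^ 2 := by
    by_contra hcon
    push Not at hcon
    have h7 : ((∫ b, cpr L F b ^ 2 ∂P1) - Pr F ^ 2) * Pr G < e₀ ^ 2 / 4 * Pr G * Pr G :=
      mul_lt_mul_of_pos_right hcon hPG0
    have h8 : (e₀ / 2 * Pr G) ^ 2 = e₀ ^ 2 / 4 * Pr G * Pr G := by ring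
    linarith
  have h7 : e₀ ^ 2 / 4 * c₀ ^ T.card ≤ e₀ ^ 2 / 4 * Pr G :=
    mul_le_mul_of_nonneg_left hPG (by positivity)
  linarith

end TP
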